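import Mathlib

set_option autoImplicit false
open Filter Topology Set

namespace Pool.Agent.Results.MP_850d3d_an.Rice

variable {B : Type*} {k : ℕ}

/-- `g` is locally solvent of degree `m` at `α₀` -/
def Solvent (A : Set B) (g : B → Fin k → ℝ) (m : ℕ) (α₀ : B) : Prop :=
  ∀ t : Fin m → Fin k, Function.Injective t → ∀ ε > 0, ∃ δ > 0, ∀ γ : Fin m → ℝ,
    (∀ i, |g α₀ (t i) - γ i| < δ) → ∃ α ∈ A, (∀ i, g α (t i) = γ i) ∧ ‖g α - g α₀‖ < ε

/-- `g` is varisolvent on `A` with degree function `p` (values in `{1,…,k}`, non-constant) -/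
def Varisolvent (A : Set B) (g : B → Fin k → ℝ) (p : B → ℕ) : Prop :=
  (∀ α ∈ A, 1 ≤ p α ∧ p α ≤ k) ∧ (∃ α ∈ A, ∃ β ∈ A, p α ≠ p β) ∧
  ∀ α₀ ∈ A, Solvent A g (p α₀) α₀ ∧
    ∀ α ∈ A, α ≠ α₀ → (Finset.univ.filter fun q => g α₀ q - g α q = 0).card ≤ p α₀ - 1

lemma low {A : Set B} {g : B → Fin k → ℝ} {p : B → ℕ} (h : Varisolvent A g p) {j : ℕ}
    (hj : j + 1 ≤ k) {a b : B} (ha : a ∈ A) (hb : b ∈ A) (hab : g a ≠ g b)
    (he : ∀ i : Fin j, g a (Fin.castLE hj i.castSucc) = g b (Fin.castLE hj i.castSucc)) :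
    j + 1 ≤ p a := by
  have h1 := (h.2.2 a ha).2 b hb fun e => hab (by rw [e])
  have h2 : j ≤ (Finset.univ.filter fun q => g a q - g b q = 0).card := by
    have := Finset.card_le_card_of_injOn (s := (Finset.univ : Finset (Fin j)))
      (t := Finset.univ.filter fun q => g a q - g b q = 0)
      (fun i => Fin.castLE hj i.castSucc) (fun i _ => by
        rw [Finset.coe_filter]; exact ⟨Finset.mem_univ _, sub_eq_zero.2 (he i)⟩)
      (fun x _ y _ e => by simpa [Fin.ext_iff] using e)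
    simpa using this
  have := (h.1 a ha).1
  omega

lemma bump {A : Set B} {g : B → Fin k → ℝ} {j : ℕ} (hj : j + 1 ≤ k) {a : B}
    (hs : Solvent A g (j + 1) a) {ε : ℝ} (hε : 0 < ε) : ∃ δ > 0, ∀ w : Fin k → ℝ,
      ‖w - g a‖ < δ → ∃ b ∈ A, (∀ i : Fin j, g b (Fin.castLE hj i.castSucc) =
        w (Fin.castLE hj i.castSucc)) ∧
        w (Fin.castLE hj (Fin.last j)) < g b (Fin.castLE hj (Fin.last j)) ∧ ‖g b - g a‖ < ε := by
  obtain ⟨δ, hδ, h⟩ := hs (Fin.castLE hj) (Fin.castLE_injective hj) ε hε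
  refine ⟨δ / 2, by positivity, fun w hw => ?_⟩
  have hw' : ∀ q, |w q - g a q| < δ / 2 := fun q => (norm_le_pi_norm (w - g a) q).trans_lt hw
  obtain ⟨b, hb, h1, h2⟩ := h (fun i => w (Fin.castLE hj i) + if i = Fin.last j then δ / 2 else 0)
    fun i => by
      have := abs_lt.1 (hw' (Fin.castLE hj i))
      rw [abs_lt]
      split_ifs <;> constructor <;> linarith [this.1, this.2]
  refine ⟨b, hb, fun i => ?_, ?_, h2⟩
  · rw [h1, if_neg (Fin.castSucc_ne_last i), add_zero]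
  · rw [h1, if_pos rfl]; linarith

theorem result {B : Type*} (k : ℕ) (A : Set B)
    (g : B → Fin k → ℝ) (p : B → ℕ) (h : Varisolvent A g p)
    (hconn : IsConnected (g '' A)) : ¬ IsClosed (g '' A) := by
  intro hcl
  obtain ⟨a1, ha1, a2, ha2, hne⟩ := h.2.1
  obtain ⟨m, ⟨a0, ha0, hm0⟩, hmax⟩ : ∃ m ∈ p '' A, ∀ n ∈ p '' A, n ≤ m := by
    have hfin : (p '' A).Finite := (Set.finite_le_nat k).subset (by
      rintro _ ⟨a, ha, rfl⟩; exact (h.1 a ha).2)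
    exact Set.exists_max_image _ id hfin ⟨_, a1, ha1, rfl⟩
  obtain ⟨j, rfl⟩ : ∃ j, m = j + 1 := ⟨m - 1, by have := (h.1 a0 ha0).1; omega⟩
  have hj : j + 1 ≤ k := hm0 ▸ (h.1 a0 ha0).2
  have hle : ∀ a ∈ A, p a ≤ j + 1 := fun a ha => hmax _ ⟨a, ha, rfl⟩
  have inj : ∀ a ∈ A, ∀ b ∈ A, g a = g b → a = b := by
    intro a ha b hb e
    by_contra hc
    have h1 := (h.2.2 a ha).2 b hb (Ne.symm hc)
    have h2 := h.1 a ha
    simp [e] at h1
    omega
  set U : Set (Fin k → ℝ) := g '' {a | a ∈ A ∧ p a = j + 1} with hU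
  have hopen : ∀ u ∈ U, ∃ δ > 0, ∀ w ∈ g '' A, ‖w - u‖ < δ → w ∈ U := by
    rintro _ ⟨a, ⟨ha, hp⟩, rfl⟩
    obtain ⟨δ, hδ, hb⟩ := bump hj (hp ▸ (h.2.2 a ha).1) one_pos
    refine ⟨δ, hδ, ?_⟩
    rintro _ ⟨c, hc, rfl⟩ hw
    obtain ⟨b, hb, h1, h2, -⟩ := hb _ hw
    exact ⟨c, ⟨hc, le_antisymm (hle c hc)
      (low h hj hc hb (fun e => h2.ne (by rw [e])) fun i => (h1 i).symm)⟩, rfl⟩
  have hclosed : ∀ w ∈ g '' A, w ∈ closure U → w ∈ U := by
    rintro _ ⟨c, hc, rfl⟩ hw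
    have sph : ∀ u ∈ U, ‖u - g c‖ < 1 → ∃ z ∈ g '' A, ‖z - g c‖ = 1 ∧
        ∀ i : Fin j, z (Fin.castLE hj i.castSucc) = u (Fin.castLE hj i.castSucc) := by
      rintro _ ⟨a, ⟨ha, hp⟩, rfl⟩ hu
      set K := g '' A ∩ (Metric.closedBall (g c) 1 ∩
        {z | ∀ i : Fin j, z (Fin.castLE hj i.castSucc) = g a (Fin.castLE hj i.castSucc)})
      have hK : IsCompact K := by
        refine IsCompact.inter_left (IsCompact.inter_right (isCompact_closedBall _ _) ?_) hcl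
        simp only [setOf_forall]
        exact isClosed_iInter fun i => isClosed_eq (by fun_prop) (by fun_prop)
      have haK : g a ∈ K := ⟨⟨a, ha, rfl⟩, mem_closedBall_iff_norm.2 hu.le, fun _ => rfl⟩
      obtain ⟨_, ⟨⟨b, hb, rfl⟩, hz1, hz2⟩, hz⟩ := hK.exists_isMaxOn ⟨_, haK⟩
        (f := fun z => z (Fin.castLE hj (Fin.last j))) (by fun_prop)
      refine ⟨g b, ⟨b, hb, rfl⟩, ?_, hz2⟩
      rw [mem_closedBall_iff_norm] at hz1
      by_contra hc1
      have hlt := lt_of_le_of_ne hz1 hc1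
      have hpb : p b = j + 1 := by
        by_cases e : g b = g a
        · rw [inj b hb a ha e, hp]
        · exact le_antisymm (hle b hb) (low h hj hb ha e hz2)
      obtain ⟨δ, hδ, hb'⟩ := bump hj (hpb ▸ (h.2.2 b hb).1) (sub_pos.2 hlt)
      obtain ⟨d, hd, h1, h2, h3⟩ := hb' (g b) (by simpa)
      have hdK : g d ∈ K := ⟨⟨d, hd, rfl⟩, mem_closedBall_iff_norm.2 (by
        linarith [norm_sub_le_norm_sub_add_norm_sub (g d) (g b) (g c)]),
        fun i => (h1 i).trans (hz2 i)⟩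
      exact absurd (hz hdK) (not_le.2 h2)
    obtain ⟨u, hu, hlim⟩ := mem_closure_iff_seq_limit.1 hw
    obtain ⟨N, hN⟩ := Metric.tendsto_atTop.1 hlim 1 one_pos
    choose z hz1 hz2 hz3 using fun n => sph (u (n + N)) (hu _)
      (by rw [← dist_eq_norm]; exact hN _ (by omega))
    obtain ⟨_, ⟨⟨d, hd, rfl⟩, hd1⟩, φ, hφ, hlim2⟩ :=
      ((isCompact_sphere (g c) 1).inter_left hcl).tendsto_subseq
        (x := z) fun n => ⟨hz1 n, mem_sphere_iff_norm.2 (hz2 n)⟩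
    refine ⟨c, ⟨hc, le_antisymm (hle c hc) (low h hj hc hd (fun e => ?_) fun i => ?_)⟩, rfl⟩
    · rw [e] at hd1; simp at hd1
    · have t1 := (tendsto_pi_nhds.1 (((tendsto_add_atTop_iff_nat N).2 hlim).comp
        hφ.tendsto_atTop)) (Fin.castLE hj i.castSucc)
      have t2 := (tendsto_pi_nhds.1 hlim2) (Fin.castLE hj i.castSucc)
      exact tendsto_nhds_unique t1 (t2.congr fun n => hz3 _ i)
  choose! δ hδ hδ' using hopen
  have hsub : g '' A ⊆ U := by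
    have hpre := hconn.2
    by_contra hc
    obtain ⟨w, hw, hwU⟩ := not_subset.1 hc
    have hU0 : g a0 ∈ U := ⟨a0, ⟨ha0, hm0⟩, rfl⟩
    obtain ⟨x, hx, hx1, hx2⟩ := hpre (⋃ u ∈ U, Metric.ball u (δ u)) (closure U)ᶜ
      (isOpen_biUnion fun _ _ => Metric.isOpen_ball) isClosed_closure.isOpen_compl
      (fun x hx => by
        by_cases e : x ∈ closure U
        · have := hclosed x hx e
          exact Or.inl (mem_biUnion this (Metric.mem_ball_self (hδ x this)))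
        · exact Or.inr e)
      ⟨_, ⟨a0, ha0, rfl⟩, mem_biUnion hU0 (Metric.mem_ball_self (hδ _ hU0))⟩
      ⟨w, hw, fun e => hwU (hclosed w hw e)⟩
    obtain ⟨u, hu, hxu⟩ := mem_iUnion₂.1 hx1
    exact hx2 (subset_closure (hδ' u hu x hx (mem_ball_iff_norm.1 hxu)))
  have hp : ∀ a ∈ A, p a = j + 1 := fun a ha => by
    obtain ⟨b, ⟨hb, hb'⟩, e⟩ := hsub ⟨a, ha, rfl⟩
    rw [← inj b hb a ha e, hb']
  exact hne (by rw [hp a1 ha1, hp a2 ha2])

end Pool.Agent.Results.MP_850d3d_an.Rice
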